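import Mathlib

/-!
# The dominating number at a strong limit singular cardinal

We prove, in ZFC, that `𝔡_λ = 2 ^ λ` for every strong limit singular cardinal `λ`.
-/

open Cardinal Set

universe u

namespace Pool.Agent.Results.MP_ae46c1_lc.DomNumberEqTwoPower

/-- The set of ordinals below `lam`, as a well-ordered type of order type `lam.ord`. -/
abbrev Below (lam : Cardinal.{u}) : Type u := lam.ord.ToType

/-- `f ≤* g` for `f g : λ → λ`: the set `{α < λ | g α < f α}` has cardinality less than `λ`. -/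
def EventuallyLE (lam : Cardinal.{u}) (f g : Below lam → Below lam) : Prop :=
  #{a : Below lam | g a < f a} < lam

/-- A family `D` of functions `λ → λ` is dominating if every `f : λ → λ` is `≤*` a member of `D`. -/
def IsDominating (lam : Cardinal.{u}) (D : Set (Below lam → Below lam)) : Prop :=
  ∀ f : Below lam → Below lam, ∃ g ∈ D, EventuallyLE lam f g

/-- The dominating number `𝔡_λ`: the least cardinality of a dominating family. -/
noncomputable def dominatingNumber (lam : Cardinal.{u}) : Cardinal.{u} :=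
  sInf {c : Cardinal.{u} | ∃ D : Set (Below lam → Below lam), IsDominating lam D ∧ #D = c}

/-- Index type: a bounded `I`-sequence of elements of `A` together with an `I`-sequence of subsets
of `I` and an element of `A`. -/
abbrev Idx {A : Type u} [LinearOrder A] (I : Set A) : Type u :=
  (Σ j : I, (I → Iio (j : A))) × (I → Set I) × A

/-- The value of the function coded by `x` at an index. -/
noncomputable def codeVal {A : Type u} [LinearOrder A] (I : Set A) (k0 : I) (x : Set A)
    (d : Idx I) : A :=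
  open Classical in
  if h : ∃ k : I, d.2.1 k = {l : I | ((d.1.2 l : A)) ∈ x} then ((Classical.choose h : I) : A)
    else (k0 : A)

section core

variable {A : Type u} [LinearOrder A]

/-- Key combinatorial lemma: the traces on `Iio j` of sets `x` whose coded function is bounded by
`g` outside a set of size at most `c` are fewer than `#I` many. -/
theorem trace_lt [NoMaxOrder A] (I : Set A) (hI : IsCofinal I) (hIinf : ℵ₀ ≤ #I) (k0 : I)
    (hIA : #I < #A)
    (σ : Idx I ≃ A) (g : A → A) (c : Cardinal.{u}) (hc : c < #A) (j : I) :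
    #{y : Set (Iio (j : A)) | ∃ x : Set A, #{a : A | g a < codeVal I k0 x (σ.symm a)} ≤ c ∧
      y = {a : Iio (j : A) | (a : A) ∈ x}} < #I := by
  classical
  by_contra hcon
  rw [not_lt] at hcon
  obtain ⟨φ⟩ := Cardinal.le_def _ _ |>.1 hcon
  choose x hx hxy using fun k : I => (φ k).2
  have hinj : ∀ k l : I, k ≠ l → ∃ a : Iio (j : A), ¬ ((a : A) ∈ x k ↔ (a : A) ∈ x l) := by
    intro k l hkl
    by_contra hno
    push Not at hno
    apply hkl
    apply φ.injective
    apply Subtype.ext
    rw [hxy k, hxy l]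
    ext a
    exact hno a
  have hne : Nonempty (Iio (j : A)) := by
    have : Nontrivial I := by
      rw [← Cardinal.one_lt_iff_nontrivial]
      exact lt_of_lt_of_le Cardinal.one_lt_aleph0 hIinf
    obtain ⟨k, l, hkl⟩ := exists_pair_ne I
    obtain ⟨a, -⟩ := hinj k l hkl
    exact ⟨a⟩
  have hI2 : #(I × I) = #I := by
    simp only [Cardinal.mk_prod, Cardinal.lift_id, Cardinal.mul_eq_self hIinf]
  obtain ⟨τ⟩ := Cardinal.eq.1 hI2
  -- τ : I × I ≃ I
  have hsep : ∀ p : I × I, ∃ a : Iio (j : A), p.1 ≠ p.2 → ¬ ((a : A) ∈ x p.1 ↔ (a : A) ∈ x p.2) := by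
    intro p
    by_cases hp : p.1 = p.2
    · exact ⟨hne.some, fun h => absurd hp h⟩
    · obtain ⟨a, ha⟩ := hinj p.1 p.2 hp
      exact ⟨a, fun _ => ha⟩
  choose s hs using hsep
  let e : I → Iio (j : A) := fun m => s (τ.symm m)
  let t : I → Set I := fun k => {l : I | ((e l : A)) ∈ x k}
  have ht : Function.Injective t := by
    intro k l hkl
    by_contra hne'
    have h1 := hs (k, l) hne'
    apply h1
    have h2 : (τ (k, l)) ∈ t k ↔ (τ (k, l)) ∈ t l := by rw [hkl]
    simpa [t, e] using h2
  -- the exceptional set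
  let E : I → Set A := fun k => {b : A | g (σ (⟨j, e⟩, t, b)) < codeVal I k0 (x k) (⟨j, e⟩, t, b)}
  have hE : ∀ k, #(E k) ≤ c := by
    intro k
    refine le_trans ?_ (hx k)
    refine Cardinal.mk_le_of_injective (f := fun b : E k =>
      (⟨σ (⟨j, e⟩, t, b.1), ?_⟩ : {a : A | g a < codeVal I k0 (x k) (σ.symm a)})) ?_
    · have := b.2
      simp only [E, Set.mem_ofPred_eq] at this
      simpa using this
    · intro b b' hbb
      have h3 := congrArg Subtype.val hbb
      simp only [EmbeddingLike.apply_eq_iff_eq, Prod.mk.injEq, true_and] at h3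
      exact Subtype.ext h3
  have hAinf : ℵ₀ ≤ #A := hIinf.trans hIA.le
  have hU : #(⋃ k, E k) < #A := by
    refine lt_of_le_of_lt (Cardinal.mk_iUnion_le _) ?_
    refine Cardinal.mul_lt_of_lt hAinf hIA ?_
    refine lt_of_le_of_lt ?_ hc
    exact ciSup_le' hE
  have hex : ∃ b : A, b ∉ ⋃ k, E k := by
    by_contra hno
    push Not at hno
    have : (⋃ k, E k) = Set.univ := Set.eq_univ_of_forall hno
    rw [this, Cardinal.mk_univ] at hU
    exact lt_irrefl _ hU
  obtain ⟨b, hb⟩ := hex
  simp only [Set.mem_iUnion, not_exists] at hb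
  have hval : ∀ k : I, codeVal I k0 (x k) (⟨j, e⟩, t, b) = (k : A) := by
    intro k
    have hk : ∃ k' : I, t k' = {l : I | ((e l : A)) ∈ x k} := ⟨k, rfl⟩
    have : codeVal I k0 (x k) (⟨j, e⟩, t, b) = ((Classical.choose hk : I) : A) := by
      unfold codeVal
      exact dif_pos hk
    rw [this]
    congr 1
    apply ht
    exact Classical.choose_spec hk
  have hle : ∀ k : I, (k : A) ≤ g (σ (⟨j, e⟩, t, b)) := by
    intro k
    have := hb k
    simp only [E, Set.mem_ofPred_eq, not_lt] at this
    rwa [hval k] at this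
  obtain ⟨b', hb'⟩ := exists_gt (g (σ (⟨j, e⟩, t, b)))
  obtain ⟨k, hk, hbk⟩ := hI b'
  exact absurd (hle ⟨k, hk⟩) (not_le.2 (lt_of_lt_of_le hb' hbk))

/-- For a fixed `g`, only few `x` have coded function bounded by `g` outside a set of size `≤ c`. -/
theorem few_le [NoMaxOrder A] (I : Set A) (hI : IsCofinal I) (hIinf : ℵ₀ ≤ #I) (k0 : I)
    (hIA : #I < #A)
    (σ : Idx I ≃ A) (g : A → A) (c : Cardinal.{u}) (hc : c < #A) :
    #{x : Set A | #{a : A | g a < codeVal I k0 x (σ.symm a)} ≤ c} ≤ #I ^ #I := by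
  let T : I → Type u := fun j =>
    {y : Set (Iio (j : A)) | ∃ x : Set A, #{a : A | g a < codeVal I k0 x (σ.symm a)} ≤ c ∧
      y = {a : Iio (j : A) | (a : A) ∈ x}}
  have h1 : #{x : Set A | #{a : A | g a < codeVal I k0 x (σ.symm a)} ≤ c} ≤ #(∀ j : I, T j) := by
    refine Cardinal.mk_le_of_injective
      (f := fun x => fun j : I => (⟨{a : Iio (j : A) | (a : A) ∈ x.1}, x.1, x.2, rfl⟩ : T j)) ?_
    intro x x' hxx
    apply Subtype.ext
    ext a
    obtain ⟨b, hb⟩ := exists_gt a
    obtain ⟨k, hk, hbk⟩ := hI b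
    have h2 : {a : Iio ((⟨k, hk⟩ : I) : A) | (a : A) ∈ x.1} =
        {a : Iio ((⟨k, hk⟩ : I) : A) | (a : A) ∈ x'.1} :=
      congrArg Subtype.val (congrFun hxx ⟨k, hk⟩)
    exact Set.ext_iff.1 h2 ⟨a, lt_of_lt_of_le hb hbk⟩
  refine h1.trans ?_
  rw [Cardinal.mk_pi]
  refine (Cardinal.prod_le_prod _ (fun _ => #I) ?_).trans ?_
  · intro j
    exact (trace_lt I hI hIinf k0 hIA σ g c hc j).le
  · simp

end core

section cardinality

theorem mk_Iio_below_lt {lam : Cardinal.{u}} (a : Below lam) : #(Iio a) < lam := by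
  simpa using Cardinal.mk_Iio_lt a

theorem power_lt_of_isStrongLimit {lam : Cardinal.{u}} (h : lam.IsStrongLimit)
    {a b : Cardinal.{u}} (ha : a < lam) (hb : b < lam) : a ^ b < lam := by
  have h0 : ℵ₀ ≤ lam := h.aleph0_le
  have h1 : a ^ b ≤ (2 ^ a) ^ b := Cardinal.power_le_power_right (Cardinal.cantor a).le
  rw [← Cardinal.power_mul] at h1
  exact lt_of_le_of_lt h1 (h.isStrongPrelimit (Cardinal.mul_lt_of_lt h0 ha hb))

theorem mk_idx_eq {lam : Cardinal.{u}} (h : lam.IsStrongLimit) (I : Set (Below lam))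
    (hcof : IsCofinal I) (hI : #I < lam) [NoMaxOrder (Below lam)] [Nonempty (Below lam)] :
    #(Idx I) = lam := by
  have h0 : ℵ₀ ≤ lam := h.aleph0_le
  have hA : #(Below lam) = lam := Cardinal.mk_ord_toType lam
  apply le_antisymm
  · have h1 : #(Σ j : I, (I → Iio (j : Below lam))) ≤ lam := by
      rw [Cardinal.mk_sigma]
      refine (Cardinal.sum_le_sum _ (fun _ => lam) ?_).trans ?_
      · intro j
        rw [← Cardinal.power_def]
        exact (power_lt_of_isStrongLimit h (mk_Iio_below_lt _) hI).le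
      · rw [Cardinal.sum_const']
        exact Cardinal.mul_le_of_le h0 hI.le le_rfl
    have h2 : #(I → Set I) ≤ lam := by
      rw [← Cardinal.power_def, Cardinal.mk_set]
      exact (power_lt_of_isStrongLimit h (h.isStrongPrelimit hI) hI).le
    simp only [Cardinal.mk_prod, Cardinal.lift_id]
    refine Cardinal.mul_le_of_le h0 h1 ?_
    exact Cardinal.mul_le_of_le h0 h2 hA.le
  · obtain ⟨a⟩ := (inferInstance : Nonempty (Below lam))
    obtain ⟨b, hb⟩ := exists_gt a
    obtain ⟨k, hk, hbk⟩ := hcof b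
    have h3 : #(Below lam) ≤ #(Idx I) := by
      refine Cardinal.mk_le_of_injective (f := fun c : Below lam =>
        ((⟨⟨k, hk⟩, fun _ => ⟨a, lt_of_lt_of_le hb hbk⟩⟩, fun _ => ∅, c) : Idx I)) ?_
      intro c c' hcc
      exact congrArg (fun d : Idx I => d.2.2) hcc
    rwa [hA] at h3

end cardinality

/-- Every cardinal below `lam` is the cardinality of a proper initial segment of `Below lam`. -/
theorem exists_mk_Iio_eq {lam c : Cardinal.{u}} (hc : c < lam) :
    ∃ a : Below lam, #(Iio a) = c := by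
  have hlt : c.ord < Ordinal.type (α := Below lam) (· < ·) := by
    rw [Ordinal.type_toType]
    exact Cardinal.ord_lt_ord.2 hc
  refine ⟨Ordinal.enum (α := Below lam) (· < ·) ⟨c.ord, hlt⟩, ?_⟩
  have h1 := Ordinal.card_typein (r := ((· < ·) : Below lam → Below lam → Prop))
    (Ordinal.enum (α := Below lam) (· < ·) ⟨c.ord, hlt⟩)
  rw [Ordinal.typein_enum, Cardinal.card_ord] at h1
  exact h1.symm

/-- The lower bound: every dominating family has at least `2 ^ λ` members. -/
theorem lower {lam : Cardinal.{u}} (h : lam.IsStrongLimit) (hs : lam.IsSingular)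
    (D : Set (Below lam → Below lam)) (hD : IsDominating lam D) : 2 ^ lam ≤ #D := by
  have h0 : ℵ₀ ≤ lam := h.aleph0_le
  have hA : #(Below lam) = lam := Cardinal.mk_ord_toType lam
  have : NoMaxOrder (Below lam) := Cardinal.noMaxOrder h0
  have : Nonempty (Below lam) := by
    rw [← Cardinal.mk_ne_zero_iff, hA]
    exact (lt_of_lt_of_le Cardinal.aleph0_pos h0).ne'
  obtain ⟨I, hcof, hIc⟩ := Order.exists_cof_eq (Below lam)
  have hIlam : #I < lam := by
    rw [hIc, Ordinal.cof_toType]
    exact hs.cof_ord_lt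
  have hIinf : ℵ₀ ≤ #I := by
    rw [hIc]
    exact Order.aleph0_le_cof
  have : Nonempty I := by
    rw [← Cardinal.mk_ne_zero_iff]
    exact (lt_of_lt_of_le Cardinal.aleph0_pos hIinf).ne'
  let k0 : I := Classical.arbitrary I
  obtain ⟨σ⟩ := Cardinal.eq.1 ((mk_idx_eq h I hcof hIlam).trans hA.symm)
  by_contra hcon
  rw [not_le] at hcon
  -- every `x` belongs to one of few small pieces
  let P : D × Below lam → Set (Set (Below lam)) := fun p =>
    {x : Set (Below lam) | #{a : Below lam | p.1.1 a < codeVal I k0 x (σ.symm a)} ≤ #(Iio p.2)}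
  have hP : ∀ p, #(P p) ≤ #I ^ #I := by
    intro p
    refine few_le I hcof hIinf k0 (by rw [hA]; exact hIlam) σ p.1.1 _ ?_
    rw [hA]
    exact mk_Iio_below_lt _
  have hcover : (⋃ p, P p) = Set.univ := by
    refine Set.eq_univ_of_forall fun x => ?_
    obtain ⟨g, hg, hfg⟩ := hD (fun a => codeVal I k0 x (σ.symm a))
    obtain ⟨a, ha⟩ := exists_mk_Iio_eq hfg
    exact Set.mem_iUnion.2 ⟨(⟨g, hg⟩, a), ha.ge⟩
  have hlt : #(⋃ p, P p) < 2 ^ lam := by
    have hinf : ℵ₀ ≤ (2 : Cardinal.{u}) ^ lam := h0.trans (Cardinal.cantor lam).le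
    refine lt_of_le_of_lt (Cardinal.mk_iUnion_le _) ?_
    refine Cardinal.mul_lt_of_lt hinf ?_ ?_
    · simp only [Cardinal.mk_prod, Cardinal.lift_id]
      refine Cardinal.mul_lt_of_lt hinf hcon ?_
      rw [hA]
      exact Cardinal.cantor lam
    · refine lt_of_le_of_lt (ciSup_le' hP) ?_
      exact (power_lt_of_isStrongLimit h hIlam hIlam).trans (Cardinal.cantor lam)
  rw [hcover, Cardinal.mk_univ, Cardinal.mk_set, hA] at hlt
  exact lt_irrefl _ hlt

/-- **Theorem** (ZFC). For every strong limit singular cardinal `lam`, the dominating number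
`𝔡_lam` equals `2 ^ lam`. -/
theorem result (lam : Cardinal.{u}) (hlim : lam.IsStrongLimit) (hsing : lam.IsSingular) :
    dominatingNumber lam = 2 ^ lam := by
  have hA : #(Below lam) = lam := Cardinal.mk_ord_toType lam
  apply le_antisymm
  · have h1 : #((Set.univ : Set (Below lam → Below lam))) = 2 ^ lam := by
      rw [Cardinal.mk_univ, ← Cardinal.power_def, hA, Cardinal.power_self_eq hlim.aleph0_le]
    refine csInf_le' ⟨Set.univ, ?_, h1⟩
    intro f
    refine ⟨f, Set.mem_univ _, ?_⟩
    unfold EventuallyLE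
    simp only [lt_self_iff_false, Set.ofPred_false, Cardinal.mk_eq_zero]
    exact hsing.pos
  · refine le_csInf ?_ ?_
    · refine ⟨_, Set.univ, ?_, rfl⟩
      intro f
      refine ⟨f, Set.mem_univ _, ?_⟩
      unfold EventuallyLE
      simp only [lt_self_iff_false, Set.ofPred_false, Cardinal.mk_eq_zero]
      exact hsing.pos
    · rintro c ⟨D, hD, rfl⟩
      exact lower hlim hsing D hD

end Pool.Agent.Results.MP_ae46c1_lc.DomNumberEqTwoPower
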